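import Pool.Agent.Helper3.DG.Disch

/-!
# Degenerate 5-choosability of sparse graphs

Every finite graph whose maximum average degree is below `10/3` (by Euler's formula this includes
all planar graphs of girth at least five) can be coloured from any lists of size five so that, for
every `k`, every `k` colours span a `k`-degenerate subgraph.
-/

namespace Pool.Agent.Results.MP_5c3283_co.SparseDegenerateChoosable

open Finset Pool.Agent.Helper3.DG

/-- Let every nonempty set `T` of vertices of `G` span a subgraph of average degree below `10/3`.
Then, for all lists of at least five colours, there is a colouring from the lists such that for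
every nonempty set `S` of colours every nonempty set of vertices with colours in `S` contains a
vertex with fewer than `|S|` neighbours in that set. -/
theorem result :
    ∀ (V : Type) [Fintype V] [DecidableEq V] (G : SimpleGraph V) [DecidableRel G.Adj],
      (∀ T : Finset V, T.Nonempty →
        3 * ∑ v ∈ T, (T.filter (fun w => G.Adj v w)).card < 10 * T.card) →
      ∀ (κ : Type) (L : V → Finset κ), (∀ v, 5 ≤ (L v).card) →
        ∃ c : V → κ, (∀ v, c v ∈ L v) ∧
          ∀ S : Finset κ, S.Nonempty → ∀ T : Finset V, T.Nonempty → (∀ v ∈ T, c v ∈ S) →
            ∃ v ∈ T, (T.filter (fun w => G.Adj v w)).card < S.card := by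
  intro V _ _ G _ hG κ L hL
  have e : ∀ (T : Finset V) (v : V), nb G T v = T.filter (fun w => G.Adj v w) := by
    intro T v
    ext w
    simp [mem_nb]
  obtain ⟨c, hc, hg⟩ := col_all (G := G) hL (U := univ) (by
    intro T _ hT
    have h := hG T hT
    simp only [e]
    exact h)
  refine ⟨c, fun v => hc v (mem_univ v), ?_⟩
  intro S hS T hT hcol
  by_contra hno
  push Not at hno
  refine hg S T (subset_univ T) ⟨hT, hS, hcol, ?_⟩
  intro v hv
  rw [e]
  exact hno v hv

end Pool.Agent.Results.MP_5c3283_co.SparseDegenerateChoosable
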